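import Pool.Agent.helper73.BS.Spec2

/-!
# Row bs:C1 (MP_a2a22c_al): finite index from the blocks and the density of the stabiliser
-/

set_option autoImplicit false

namespace Pool.Agent.BS

open Matrix Module Pool.Agent.UG Pool.Agent.H48SL Pool.Agent.SHL

/-- the stabiliser of a row -/
def C1_F {n : ℕ} (ψ : Fin n → ℚ) : Subgroup (SLZ n) where
  carrier := {x | ψ ᵥ* qg x = ψ}
  one_mem' := by
    change ψ ᵥ* qg 1 = ψ
    rw [qg_one, vecMul_one]
  mul_mem' := by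
    intro a b ha hb
    change ψ ᵥ* qg (a * b) = ψ
    change ψ ᵥ* qg a = ψ at ha
    change ψ ᵥ* qg b = ψ at hb
    rw [qg_mul, ← vecMul_vecMul, ha, hb]
  inv_mem' := by
    intro a ha
    change ψ ᵥ* qg a = ψ at ha
    change ψ ᵥ* qg a⁻¹ = ψ
    have h1 : (ψ ᵥ* qg a) ᵥ* qg a⁻¹ = ψ := by
      rw [vecMul_vecMul, qg_mul_inv, vecMul_one]
    rwa [ha] at h1

theorem C1_tv {n : ℕ} (g : SLZ (n + 1)) (hf : fx g) (hd : dn (qg g) = 1) :
    g = tv (Pi.single 0 1) (fun j => if j = 0 then 0 else (g : Matrix (Fin (n + 1)) (Fin (n + 1)) ℤ) 0 j) := by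
  apply SL_ext
  rw [tv_coe]
  · ext i j
    rw [Matrix.add_apply, vecMulVec_apply]
    have hc := (fx_iff g).1 hf
    refine Fin.cases ?_ (fun i => ?_) i
    · rw [Pi.single_eq_same, one_mul]
      by_cases hj : j = 0
      · subst hj
        rw [hc, if_pos rfl, if_pos rfl, Matrix.one_apply_eq, add_zero]
      · rw [if_neg hj, Matrix.one_apply_ne (Ne.symm hj), zero_add]
    · rw [Pi.single_eq_of_ne (Fin.succ_ne_zero i), zero_mul, add_zero]
      refine Fin.cases ?_ (fun j => ?_) j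
      · rw [hc, if_neg (Fin.succ_ne_zero i), Matrix.one_apply_ne (Fin.succ_ne_zero i)]
      · have h1 := congrFun (congrFun hd i) j
        rw [dn_apply, qg_apply] at h1
        by_cases hij : i = j
        · subst hij
          rw [Matrix.one_apply_eq] at h1 ⊢
          exact_mod_cast h1
        · rw [Matrix.one_apply_ne hij] at h1
          rw [Matrix.one_apply_ne (fun h => hij (Fin.succ_injective n h))]
          exact_mod_cast h1
  · rw [dotProduct_single, if_pos rfl, zero_mul]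

theorem C1_xe {n : ℕ} {i j : Fin n} (hij : i ≠ j) (K : ℕ) :
    xe i j (K : ℤ) = (xe i j 1) ^ K := by
  unfold xe
  rw [← tv_nsmul_right (single_dot hij 1)]
  congr 1
  ext l
  by_cases hl : l = j
  · subst hl; simp
  · simp [hl]

theorem C1_dot {n : ℕ} (τ : Fin (n + 1) → ℤ) (h0 : τ 0 = 0) :
    τ ⬝ᵥ (Pi.single 0 1 : Fin (n + 1) → ℤ) = 0 := by
  rw [dotProduct_single, h0, zero_mul]

theorem C1_fx {n : ℕ} (τ : Fin (n + 1) → ℤ) (h0 : τ 0 = 0) :
    fx (tv (Pi.single 0 1) τ : SLZ (n + 1)) := by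
  rw [fx_iff]
  intro i
  rw [tv_coe (C1_dot τ h0), Matrix.add_apply, vecMulVec_apply, h0, mul_zero, add_zero]
  by_cases hi : i = 0
  · subst hi; simp
  · rw [if_neg hi, Matrix.one_apply_ne hi]

theorem C1_vm {n : ℕ} (τ : Fin (n + 1) → ℤ) (h0 : τ 0 = 0) (ψ : Fin (n + 1) → ℚ) (hψ : ψ 0 = 1) :
    ψ ᵥ* qg (tv (Pi.single 0 1) τ : SLZ (n + 1)) = ψ + castV τ := by
  rw [qg_tv (C1_dot τ h0), vecMul_add, vecMul_one, vecMul_vecMulVec, castV_single,
    dotProduct_single, hψ, mul_one, one_smul]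

/-- rational polynomial functions which vanish on a subgroup vanish on its closure -/
theorem C1_Zc {n : ℕ} {G : Subgroup (SLZ n)} {F : SLZ n → ℚ} (hF : IsPolyQ F)
    (h : ∀ x ∈ G, F x = 0) {g : SLZ n} (hg : g ∈ Zc G) : F g = 0 := by
  obtain ⟨P, hP⟩ := hF
  obtain ⟨N, P', hN, h1⟩ := clear_poly P
  have h2 : ∀ x : SLZ n, ((MvPolynomial.eval
      (fun y : Fin n × Fin n => (x : Matrix (Fin n) (Fin n) ℤ) y.1 y.2) P' : ℤ) : ℚ)
      = N * F x := by
    intro x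
    rw [h1, hP]
    rfl
  have h3 := hg (fun x => MvPolynomial.eval
    (fun y : Fin n × Fin n => (x : Matrix (Fin n) (Fin n) ℤ) y.1 y.2) P') ⟨P', fun _ => rfl⟩
    (fun x hx => by
      have h4 := h2 x
      rw [h x hx, mul_zero] at h4
      exact_mod_cast h4)
  have h5 := h2 g
  have h3' : MvPolynomial.eval
    (fun y : Fin n × Fin n => (g : Matrix (Fin n) (Fin n) ℤ) y.1 y.2) P' = 0 := h3
  rw [h3', Int.cast_zero] at h5
  rcases mul_eq_zero.1 h5.symm with h6 | h6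
  · exact absurd (by exact_mod_cast h6) hN
  · exact h6

theorem C1_pow {n : ℕ} (J : ℕ) : ∀ i j : Fin n, IsPolyQ (fun h : SLZ n => qg (h ^ J) i j) := by
  induction J with
  | zero =>
    intro i j
    have h1 : (fun h : SLZ n => qg (h ^ 0) i j) = fun _ => (1 : MQ n) i j := by
      funext h
      rw [pow_zero, qg_one]
    rw [h1]
    exact IsPolyQ.const _
  | succ J ih =>
    intro i j
    have h1 : (fun h : SLZ n => qg (h ^ (J + 1)) i j)
        = fun h => ∑ k, qg (h ^ J) i k * qg h k j := by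
      funext h
      rw [pow_succ, qg_mul, Matrix.mul_apply]
    rw [h1]
    exact IsPolyQ.sum _ _ fun k _ => (ih i k).mul (IsPolyQ.entry k j)

theorem C1 (hH1 : UG.H1_stmt) (hEFI : UG.EFI_stmt) (hTRV : UG.TRV_stmt) : C1_stmt := by
  intro n hn H hD hSt hfi
  by_contra hnf
  have hno' : ∀ τ : Fin (n + 1) → ℤ, τ ≠ 0 → τ 0 = 0 → tv (Pi.single 0 1) τ ∉ H :=
    fun τ h1 h2 h3 => hnf (hTRV n (by omega) H hD hfi τ h1 h2 h3)
  -- (i)
  have hker : ∀ g ∈ H ⊓ St n, dn (qg g) = 1 → g = 1 := by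
    intro g hg hd
    have h1 := C1_tv g hg.2 hd
    by_cases h0 : (fun j => if j = 0 then 0 else (g : Matrix (Fin (n + 1)) (Fin (n + 1)) ℤ) 0 j) = 0
    · rw [h1, h0, tv_zero_right]
    · exfalso
      apply hno' _ h0 (by simp)
      rw [← h1]
      exact hg.1
  -- (ii)
  obtain ⟨K, hK, hKm⟩ : ∃ K : ℕ, 1 ≤ K ∧ ∀ i j : Fin n, i ≠ j → xe i j (K : ℤ) ∈ Hb H := by
    refine ⟨(Hb H).index.factorial, Nat.factorial_pos _, fun i j hij => ?_⟩
    obtain ⟨a, ha, hle, hmem⟩ := Subgroup.exists_pow_mem_of_index_ne_zero hfi.index_ne_zero (xe i j 1)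
    rw [C1_xe hij]
    obtain ⟨b, hb⟩ := Nat.dvd_factorial ha hle
    rw [hb, pow_mul]
    exact Subgroup.pow_mem _ hmem b
  have hlift : ∀ i j : Fin n, ∃ g : SLZ (n + 1), i ≠ j →
      g ∈ H ⊓ St n ∧ dn (qg g) = qg (xe i j (K : ℤ)) := by
    intro i j
    by_cases hij : i ≠ j
    · obtain ⟨h, hh, hf, hd⟩ := mem_Hb.1 (hKm i j hij)
      exact ⟨h, fun _ => ⟨⟨hh, hf⟩, hd⟩⟩
    · exact ⟨1, fun h => absurd h hij⟩
  choose g hg using hlift
  obtain ⟨ψ, hψ0, hψ⟩ := hH1 n hn (H ⊓ St n) (fun x hx => hx.2) hker K hK g hg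
  set E : Subgroup (SLZ (n + 1)) := (H ⊓ St n) ⊓ C1_F ψ with hE
  have hEfi : (Hb E).FiniteIndex := by
    apply hEFI n hn K hK
    intro i j hij
    rw [mem_Hb]
    exact ⟨g i j, ⟨(hg i j hij).1, hψ i j hij⟩, (hg i j hij).1.2, (hg i j hij).2⟩
  set J : ℕ := (Hb E).index.factorial with hJ
  have hJ1 : 1 ≤ J := Nat.factorial_pos _
  have hJm : ∀ s : SLZ n, s ^ J ∈ Hb E := by
    intro s
    obtain ⟨a, ha, hle, hmem⟩ := Subgroup.exists_pow_mem_of_index_ne_zero hEfi.index_ne_zero s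
    obtain ⟨b, hb⟩ := Nat.dvd_factorial ha hle
    rw [hJ, hb, pow_mul]
    exact Subgroup.pow_mem _ hmem b
  -- (iii)
  have hiii : ∀ x ∈ H ⊓ St n, ψ ᵥ* qg (x ^ J) = ψ := by
    intro x hx
    have hfx : fx x := hx.2
    obtain ⟨ε, hε, hεf, hεd⟩ := mem_Hb.1 (hJm (bl x hfx))
    have hx2 : x ^ J = ε := by
      have h1 : blHom n (⟨x, hfx⟩ ^ J) = blHom n ⟨ε, hεf⟩ := by
        rw [map_pow]
        apply qg_inj
        change qg (bl x hfx ^ J) = dn (qg ε)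
        exact hεd.symm
      have h2 : blHom n ((⟨x, hfx⟩ : St n) ^ J * (⟨ε, hεf⟩ : St n)⁻¹) = 1 := by
        rw [map_mul, map_inv, h1, mul_inv_cancel]
      have h3 : dn (qg (x ^ J * ε⁻¹)) = 1 := by
        have h4 := congrArg qg h2
        rw [qg_one] at h4
        exact h4
      have h5 := hker (x ^ J * ε⁻¹) ⟨H.mul_mem (H.pow_mem hx.1 J) (H.inv_mem hε.1.1),
        (St n).mul_mem ((St n).pow_mem hfx J) ((St n).inv_mem hεf)⟩ h3
      exact mul_inv_eq_one.mp h5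
    rw [hx2]
    exact hε.2
  -- (iv)
  have hiv : ∀ (i : Fin (n + 1)), ∀ x ∈ St n, (ψ ᵥ* qg (x ^ J)) i - ψ i = 0 := by
    intro i x hx
    have hp : IsPolyQ (fun h : SLZ (n + 1) => (ψ ᵥ* qg (h ^ J)) i - ψ i) := by
      have h1 : (fun h : SLZ (n + 1) => (ψ ᵥ* qg (h ^ J)) i - ψ i)
          = fun h => (∑ k, ψ k * qg (h ^ J) k i) - ψ i := by
        funext h
        rfl
      rw [h1]
      exact (IsPolyQ.sum _ _ fun k _ => (IsPolyQ.const _).mul (C1_pow J k i)).sub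
        (IsPolyQ.const _)
    exact C1_Zc hp (fun y hy => by rw [hiii y hy, sub_self]) (hSt hx)
  set i0 : Fin n := ⟨0, by omega⟩ with hi0
  set τ : Fin (n + 1) → ℤ := Pi.single i0.succ 1 with hτ
  have hτ0 : τ 0 = 0 := by
    rw [hτ, Pi.single_eq_of_ne (Ne.symm (Fin.succ_ne_zero i0))]
  have h1 := hiv i0.succ (tv (Pi.single 0 1) τ) (C1_fx τ hτ0)
  have hJτ0 : ((J : ℤ) • τ) 0 = 0 := by
    rw [Pi.smul_apply, hτ0, smul_zero]
  rw [← tv_nsmul_right (C1_dot τ hτ0), C1_vm _ hJτ0 ψ hψ0, Pi.add_apply, add_sub_cancel_left] at h1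
  have h2 : castV ((J : ℤ) • τ) i0.succ = (J : ℚ) := by
    show ((((J : ℤ) • τ) i0.succ : ℤ) : ℚ) = (J : ℚ)
    rw [Pi.smul_apply, hτ, Pi.single_eq_same]
    simp
  rw [h2] at h1
  have h3 : J = 0 := by exact_mod_cast h1
  omega

end Pool.Agent.BS
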