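import Pool.Agent.helper73.BS.Spec

/-!
# Row bs:JZ (MP_a2a22c_al): the Jordan parts are in the closure of the powers
-/

set_option autoImplicit false

namespace Pool.Agent.BS

open Matrix Module Pool.Agent.UG Pool.Agent.H48SL Pool.Agent.SHL

theorem JZ_cf_poly (Λ : Subgroup KBˣ) (q : Polynomial ℚ) :
    CF Λ (fun _ x => algebraMap ℚ KB (q.eval x)) := by
  refine ⟨{1}, fun _ => q.map (algebraMap ℚ KB), ?_, ?_⟩
  · intro z hz
    rw [Finset.mem_singleton.1 hz]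
    exact Λ.one_mem
  · intro k x
    rw [Finset.sum_singleton, Units.val_one, one_pow, mul_one, Polynomial.eval_map_algebraMap,
      Polynomial.aeval_algebraMap_apply, Polynomial.coe_aeval_eq_eval]

theorem JZ_cf_sum (hXA : XA_stmt) (Λ : Subgroup KBˣ) {ι : Type} (s : Finset ι)
    (f : ι → ℕ → ℚ → KB) (hf : ∀ i ∈ s, CF Λ (f i)) : CF Λ (fun k x => ∑ i ∈ s, f i k x) := by
  classical
  induction s using Finset.induction_on with
  | empty => simp only [Finset.sum_empty]; exact (hXA Λ).1 0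
  | insert a s ha ih =>
    simp only [Finset.sum_insert ha]
    exact (hXA Λ).2.2.2.1 _ _ (hf a (Finset.mem_insert_self a s))
      (ih fun i hi => hf i (Finset.mem_insert_of_mem hi))

theorem JZ_cf_mv (hXA : XA_stmt) (Λ : Subgroup KBˣ) {σ : Type} (f : σ → ℕ → ℚ → ℚ)
    (hf : ∀ a, CF Λ (fun k x => algebraMap ℚ KB (f a k x))) (F : MvPolynomial σ ℚ) :
    CF Λ (fun k x => algebraMap ℚ KB (MvPolynomial.eval (fun a => f a k x) F)) := by
  induction F using MvPolynomial.induction_on with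
  | C a =>
    simp only [MvPolynomial.eval_C]
    exact (hXA Λ).1 _
  | add p q hp hq =>
    simp only [map_add]
    exact (hXA Λ).2.2.2.1 _ _ hp hq
  | mul_X p a hp =>
    simp only [map_mul, MvPolynomial.eval_X]
    exact (hXA Λ).2.2.2.2 _ _ hp (hf a)

theorem JZ_comm_exp {n : ℕ} {s N : MQ n} (hN : IsNilpotent N) (h : Commute s N) :
    Commute s (IsNilpotent.exp N) := by
  obtain ⟨m, hm⟩ := hN
  rw [IsNilpotent.exp_eq_sum hm]
  exact Commute.sum_right _ _ _ fun i _ => (h.pow_right i).smul_right _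

/-- the entries of `s ^ k * exp (x • N)` -/
theorem JZ_entries (hXA : XA_stmt) (hXZ : XZ_stmt) (hEXJ : UG.EXJ_stmt) (n : ℕ) (s N : MQ n)
    (Λ : Subgroup KBˣ) (hs : IsUnit s.det) (hss : Module.End.IsSemisimple (Matrix.toLin' s))
    (hΛ : ∀ (l : KB) (w : Fin n → KB), w ≠ 0 → s.map (algebraMap ℚ KB) *ᵥ w = l • w →
      ∃ z ∈ Λ, (z : KB) = l) (hN : IsNilpotent N) (i j : Fin n) :
    CF Λ (fun k x => algebraMap ℚ KB ((s ^ k * IsNilpotent.exp (x • N)) i j)) := by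
  have h1 : ∀ (k : ℕ) (x : ℚ), algebraMap ℚ KB ((s ^ k * IsNilpotent.exp (x • N)) i j)
      = ∑ l, algebraMap ℚ KB ((s ^ k) i l) * algebraMap ℚ KB (IsNilpotent.exp (x • N) l j) := by
    intro k x
    rw [Matrix.mul_apply, map_sum]
    exact Finset.sum_congr rfl fun l _ => map_mul _ _ _
  simp only [h1]
  refine JZ_cf_sum hXA Λ Finset.univ _ fun l _ => ?_
  refine (hXA Λ).2.2.2.2 _ _ (hXZ n s Λ hs hss hΛ i l).1 ?_
  obtain ⟨-, -, -, -, -, -, hPC, -⟩ := hEXJ n N hN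
  obtain ⟨p, hp⟩ := hPC l j
  have h2 : ∀ x : ℚ, IsNilpotent.exp (x • N) l j = p.eval x := fun x => hp x
  simp only [h2]
  exact JZ_cf_poly Λ p

theorem JZ (hXI : XI_stmt) (hXA : XA_stmt) (hXZ : XZ_stmt) (hEXJ : UG.EXJ_stmt) : JZ_stmt := by
  intro n y s N hy hJD k x F hF
  obtain ⟨hN, hc, hss, hysN⟩ := hJD
  have hs : IsUnit s.det := by
    rw [hysN, Matrix.det_mul] at hy
    exact isUnit_of_mul_isUnit_left hy
  have hpow : ∀ m : ℕ, y ^ m = s ^ m * IsNilpotent.exp ((m : ℚ) • N) := by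
    intro m
    rw [hysN, (JZ_comm_exp hN hc).mul_pow, (hEXJ n N hN).1 m]
  have hΛ : ∀ (l : KB) (w : Fin n → KB), w ≠ 0 → s.map (algebraMap ℚ KB) *ᵥ w = l • w →
      ∃ z ∈ (⊤ : Subgroup KBˣ), (z : KB) = l := by
    intro l w hw hl
    have hl0 : l ≠ 0 := by
      intro h0
      rw [h0, zero_smul] at hl
      refine hw (Matrix.eq_zero_of_mulVec_eq_zero ?_ hl)
      have h2 : (s.map (algebraMap ℚ KB)).det = algebraMap ℚ KB s.det := by
        rw [RingHom.map_det, RingHom.mapMatrix_apply]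
      rw [h2]
      intro h3
      exact hs.ne_zero ((map_eq_zero (algebraMap ℚ KB)).1 h3)
    exact ⟨Units.mk0 l hl0, Subgroup.mem_top _, rfl⟩
  obtain ⟨t, p, -, hp⟩ := JZ_cf_mv hXA ⊤
    (fun (a : Fin n × Fin n) (k : ℕ) (x : ℚ) => (s ^ k * IsNilpotent.exp (x • N)) a.1 a.2)
    (fun a => JZ_entries hXA hXZ hEXJ n s N ⊤ hs hss hΛ hN a.1 a.2) F
  have h0 : ∀ m : ℕ, ∑ z ∈ t, (p z).eval (m : KB) * (z : KB) ^ m = 0 := by
    intro m
    have h1 := hp m (m : ℚ)
    have h2 := hF (y ^ m) ⟨m, rfl⟩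
    rw [hpow m] at h2
    have h3 : algebraMap ℚ KB (m : ℚ) = (m : KB) := map_natCast _ m
    rw [h3] at h1
    rw [← h1]
    show algebraMap ℚ KB (MvPolynomial.eval
      (fun a : Fin n × Fin n => (s ^ m * IsNilpotent.exp ((m : ℚ) • N)) a.1 a.2) F) = 0
    rw [h2, map_zero]
  have h4 := hXI KB t p h0
  have h5 := hp k x
  have h6 : ∑ z ∈ t, (p z).eval (algebraMap ℚ KB x) * (z : KB) ^ k = 0 := by
    refine Finset.sum_eq_zero fun z hz => ?_
    rw [h4 z hz, Polynomial.eval_zero, zero_mul]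
  rw [h6] at h5
  exact (map_eq_zero (algebraMap ℚ KB)).1 h5

end Pool.Agent.BS
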